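import Mathlib

open Set

namespace Pool.Agent.Results.MP_c457a4_an.CcsDeltaSum

/-- `S` is a slice of the closed unit ball of `X`. -/
def IsSlice (𝕜 : Type*) [RCLike 𝕜] {X : Type*} [NormedAddCommGroup X] [NormedSpace 𝕜 X]
    (S : Set X) : Prop :=
  ∃ f : StrongDual 𝕜 X, ‖f‖ = 1 ∧ ∃ α : ℝ, 0 < α ∧
    S = {z : X | ‖z‖ ≤ 1 ∧ 1 - α < RCLike.re (f z)}

/-- `C` is a convex combination of slices of the closed unit ball of `X`. -/
def IsCcs (𝕜 : Type*) [RCLike 𝕜] {X : Type*} [NormedAddCommGroup X] [NormedSpace 𝕜 X]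
    (C : Set X) : Prop :=
  ∃ n : ℕ, 1 ≤ n ∧ ∃ (S : Fin n → Set X) (c : Fin n → ℝ),
    (∀ i, IsSlice 𝕜 (S i)) ∧ (∀ i, 0 ≤ c i) ∧ ∑ i, c i = 1 ∧
    C = {w : X | ∃ z : Fin n → X, (∀ i, z i ∈ S i) ∧ w = ∑ i, ((c i : ℝ) : 𝕜) • z i}

/-- `x` is a ccs Delta-point of `X`. -/
def IsCcsDelta (𝕜 : Type*) [RCLike 𝕜] {X : Type*} [NormedAddCommGroup X] [NormedSpace 𝕜 X]
    (x : X) : Prop :=
  ‖x‖ = 1 ∧ ∀ C : Set X, IsCcs 𝕜 C → x ∈ C → sSup ((fun z => ‖x - z‖) '' C) = 2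

theorem lift_ccsDelta (𝕜 : Type*) [RCLike 𝕜] {X Z : Type*} [NormedAddCommGroup X]
    [NormedSpace 𝕜 X] [NormedAddCommGroup Z] [NormedSpace 𝕜 Z]
    (ι : X →L[𝕜] Z) (π : Z →L[𝕜] X) (hπι : ∀ x, π (ι x) = x) (hπ : ∀ z, ‖π z‖ ≤ ‖z‖)
    (hrep : ∀ (z : Z) (x' : X), ‖z‖ ≤ 1 → ‖x'‖ ≤ 1 → ‖z + ι (x' - π z)‖ ≤ 1)
    (p : Z) (hp : ‖p‖ ≤ 1) (hx : IsCcsDelta 𝕜 (π p)) : IsCcsDelta 𝕜 p := by
  have hp1 : ‖p‖ = 1 := le_antisymm hp (hx.1 ▸ hπ p)
  refine ⟨hp1, ?_⟩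
  rintro C ⟨n, hn, S, c, hS, hc0, hc1, rfl⟩ ⟨z, hz, hpz⟩
  -- data of the slices
  choose F hF α hα hSe using hS
  have hzS : ∀ i, ‖z i‖ ≤ 1 ∧ 1 - α i < RCLike.re (F i (z i)) := by
    intro i
    have := hz i
    rw [hSe i] at this
    exact this
  have hX : ∃ f : StrongDual 𝕜 X, ‖f‖ = 1 := by
    have hne : π p ≠ 0 := by
      intro h
      have := hx.1
      rw [h, norm_zero] at this
      exact zero_ne_one this
    obtain ⟨g, hg, -⟩ := exists_dual_vector 𝕜 (π p) (norm_ne_zero_iff.mpr hne)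
    exact ⟨g, hg⟩
  obtain ⟨f0, hf0⟩ := hX
  let S' : Fin n → Set X := fun i =>
    {x' : X | ‖x'‖ ≤ 1 ∧ 1 - α i - RCLike.re (F i (z i - ι (π (z i)))) < RCLike.re (F i (ι x'))}
  have hmem0 : ∀ i, π (z i) ∈ S' i := by
    intro i
    refine ⟨(hπ _).trans (hzS i).1, ?_⟩
    have h := (hzS i).2
    have : RCLike.re (F i (z i)) = RCLike.re (F i (z i - ι (π (z i))))
        + RCLike.re (F i (ι (π (z i)))) := by
      rw [← map_add, ← map_add]; congr 2; abel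
    linarith
  have hS' : ∀ i, IsSlice 𝕜 (S' i) := by
    intro i
    set g : StrongDual 𝕜 X := (F i).comp ι with hg
    have hgx : ∀ x', F i (ι x') = g x' := fun x' => rfl
    set t : ℝ := 1 - α i - RCLike.re (F i (z i - ι (π (z i)))) with ht
    by_cases hg0 : g = 0
    · have ht0 : t < 0 := by
        have h := (hmem0 i).2
        rw [hgx, hg0, _root_.zero_apply, map_zero] at h
        exact h
      refine ⟨f0, hf0, 3, by norm_num, ?_⟩
      ext x'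
      constructor
      · rintro ⟨h1, -⟩
        refine ⟨h1, ?_⟩
        have h2 : |RCLike.re (f0 x')| ≤ 1 := by
          calc |RCLike.re (f0 x')| ≤ ‖f0 x'‖ := RCLike.abs_re_le_norm _
            _ ≤ ‖f0‖ * ‖x'‖ := f0.le_opNorm _
            _ ≤ 1 := by rw [hf0, one_mul]; exact h1
        have := (abs_le.mp h2).1
        linarith
      · rintro ⟨h1, -⟩
        refine ⟨h1, ?_⟩
        rw [hgx, hg0, _root_.zero_apply, map_zero]
        exact ht0
    · have hgn : 0 < ‖g‖ := norm_pos_iff.mpr hg0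
      refine ⟨(((‖g‖⁻¹ : ℝ)) : 𝕜) • g, ?_, 1 - t / ‖g‖, ?_, ?_⟩
      · rw [norm_smul, RCLike.norm_ofReal, abs_of_pos (inv_pos.mpr hgn), inv_mul_cancel₀ hgn.ne']
      · have h := (hmem0 i).2
        rw [hgx] at h
        have h2 : RCLike.re (g (π (z i))) ≤ ‖g‖ := by
          calc RCLike.re (g (π (z i))) ≤ ‖g (π (z i))‖ := RCLike.re_le_norm _
            _ ≤ ‖g‖ * ‖π (z i)‖ := g.le_opNorm _
            _ ≤ ‖g‖ * 1 := by gcongr; exact (hmem0 i).1
            _ = ‖g‖ := mul_one _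
        have h3 : t < ‖g‖ := lt_of_lt_of_le h h2
        have : t / ‖g‖ < 1 := (div_lt_one hgn).mpr h3
        linarith
      · ext x'
        have key : RCLike.re ((((((‖g‖⁻¹ : ℝ)) : 𝕜) • g) : StrongDual 𝕜 X) x')
            = RCLike.re (g x') / ‖g‖ := by
          rw [_root_.smul_apply, smul_eq_mul, RCLike.re_ofReal_mul]
          rw [div_eq_inv_mul]
        simp only [S', mem_ofPred_eq]
        rw [key, hgx]
        constructor
        · rintro ⟨h1, h2⟩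
          refine ⟨h1, ?_⟩
          have : t / ‖g‖ < RCLike.re (g x') / ‖g‖ := div_lt_div_of_pos_right h2 hgn
          linarith
        · rintro ⟨h1, h2⟩
          refine ⟨h1, ?_⟩
          have : t / ‖g‖ < RCLike.re (g x') / ‖g‖ := by linarith
          exact (div_lt_div_iff_of_pos_right hgn).mp this
  -- the ccs of the ball of X
  have hC' : IsCcs 𝕜 {w : X | ∃ z : Fin n → X, (∀ i, z i ∈ S' i) ∧
      w = ∑ i, ((c i : ℝ) : 𝕜) • z i} := ⟨n, hn, S', c, hS', hc0, hc1, rfl⟩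
  have hsup := hx.2 _ hC' ⟨fun i => π (z i), hmem0, by rw [hpz]; simp [map_sum]⟩
  set D : Set Z := {w : Z | ∃ z : Fin n → Z, (∀ i, z i ∈ S i) ∧ w = ∑ i, ((c i : ℝ) : 𝕜) • z i}
    with hD
  have hDb : ∀ w ∈ D, ‖w‖ ≤ 1 := by
    rintro w ⟨y, hy, rfl⟩
    calc ‖∑ i, ((c i : ℝ) : 𝕜) • y i‖ ≤ ∑ i, ‖((c i : ℝ) : 𝕜) • y i‖ := norm_sum_le _ _
      _ ≤ ∑ i, c i := by
          apply Finset.sum_le_sum
          intro i _
          rw [norm_smul, RCLike.norm_ofReal, abs_of_nonneg (hc0 i)]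
          have : ‖y i‖ ≤ 1 := by
            have := hy i
            rw [hSe i] at this
            exact this.1
          calc c i * ‖y i‖ ≤ c i * 1 := by gcongr; exact hc0 i
            _ = c i := mul_one _
      _ = 1 := hc1
  have hbdd : BddAbove ((fun w => ‖p - w‖) '' D) := by
    refine ⟨2, ?_⟩
    rintro _ ⟨w, hw, rfl⟩
    calc ‖p - w‖ ≤ ‖p‖ + ‖w‖ := norm_sub_le _ _
      _ ≤ 2 := by linarith [hDb w hw]
  have hpD : p ∈ D := ⟨z, hz, hpz⟩
  apply le_antisymm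
  · refine csSup_le (Set.Nonempty.image _ ⟨p, hpD⟩) ?_
    rintro _ ⟨w, hw, rfl⟩
    calc ‖p - w‖ ≤ ‖p‖ + ‖w‖ := norm_sub_le _ _
      _ ≤ 2 := by linarith [hDb w hw]
  · rw [← hsup]
    refine csSup_le (Set.Nonempty.image _
      ⟨π p, ⟨fun i => π (z i), hmem0, by rw [hpz]; simp [map_sum]⟩⟩) ?_
    · rintro _ ⟨w, ⟨y, hy, rfl⟩, rfl⟩
      have hmem : (∑ i, ((c i : ℝ) : 𝕜) • (z i + ι (y i - π (z i)))) ∈ D := by
        refine ⟨fun i => z i + ι (y i - π (z i)), ?_, rfl⟩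
        intro i
        rw [hSe i]
        refine ⟨hrep _ _ (hzS i).1 (hy i).1, ?_⟩
        have h1 := (hy i).2
        have h2 : RCLike.re (F i (z i + ι (y i - π (z i))))
            = RCLike.re (F i (z i - ι (π (z i)))) + RCLike.re (F i (ι (y i))) := by
          rw [← map_add, ← map_add]; congr 2; rw [map_sub]; abel
        rw [h2]; linarith
      have hle := le_csSup hbdd ⟨_, hmem, rfl⟩
      refine le_trans ?_ hle
      have h3 : π (p - ∑ i, ((c i : ℝ) : 𝕜) • (z i + ι (y i - π (z i))))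
          = π p - ∑ i, ((c i : ℝ) : 𝕜) • y i := by
        rw [map_sub, map_sum]
        congr 1
        apply Finset.sum_congr rfl
        intro i _
        rw [map_smul, map_add, hπι]
        congr 1
        abel
      show ‖π p - ∑ i, ((c i : ℝ) : 𝕜) • y i‖ ≤
        ‖p - ∑ i, ((c i : ℝ) : 𝕜) • (z i + ι (y i - π (z i)))‖
      rw [← h3]
      exact hπ _

/-- If `x` and `y` are ccs Delta-points of `X` and `Y`, then `(a x, b y)` is a ccs Delta-point of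
the sup-sum `X × Y` whenever `a, b ∈ [0,1]` and `max a b = 1`. -/
theorem result (𝕜 : Type*) [RCLike 𝕜] (X Y : Type*) [NormedAddCommGroup X] [NormedSpace 𝕜 X]
    [CompleteSpace X] [NormedAddCommGroup Y] [NormedSpace 𝕜 Y] [CompleteSpace Y]
    (x : X) (y : Y) (hx : IsCcsDelta 𝕜 x) (hy : IsCcsDelta 𝕜 y)
    (a b : ℝ) (ha : a ∈ Set.Icc (0 : ℝ) 1) (hb : b ∈ Set.Icc (0 : ℝ) 1) (hab : max a b = 1) :
    IsCcsDelta 𝕜 (((a : 𝕜) • x, (b : 𝕜) • y) : X × Y) := by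
  have hnorm : ‖(((a : 𝕜) • x, (b : 𝕜) • y) : X × Y)‖ ≤ 1 := by
    rw [Prod.norm_mk, norm_smul, norm_smul, hx.1, hy.1, RCLike.norm_ofReal, RCLike.norm_ofReal,
      abs_of_nonneg ha.1, abs_of_nonneg hb.1, mul_one, mul_one, hab]
  rcases max_choice a b with h | h
  · rw [hab] at h
    apply lift_ccsDelta 𝕜 (ContinuousLinearMap.inl 𝕜 X Y) (ContinuousLinearMap.fst 𝕜 X Y)
      (fun x => rfl) (fun z => norm_fst_le z) _ _ hnorm
    · show IsCcsDelta 𝕜 ((a : 𝕜) • x)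
      rw [← h]; simpa using hx
    · intro z x' hz hx'
      have : z + (ContinuousLinearMap.inl 𝕜 X Y) (x' - (ContinuousLinearMap.fst 𝕜 X Y) z)
          = (x', z.2) := by
        ext <;> simp
      rw [this, Prod.norm_mk]
      exact max_le hx' ((norm_snd_le z).trans hz)
  · rw [hab] at h
    apply lift_ccsDelta 𝕜 (ContinuousLinearMap.inr 𝕜 X Y) (ContinuousLinearMap.snd 𝕜 X Y)
      (fun x => rfl) (fun z => norm_snd_le z) _ _ hnorm
    · show IsCcsDelta 𝕜 ((b : 𝕜) • y)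
      rw [← h]; simpa using hy
    · intro z y' hz hy'
      have : z + (ContinuousLinearMap.inr 𝕜 X Y) (y' - (ContinuousLinearMap.snd 𝕜 X Y) z)
          = (z.1, y') := by
        ext <;> simp
      rw [this, Prod.norm_mk]
      exact max_le ((norm_fst_le z).trans hz) hy'

end Pool.Agent.Results.MP_c457a4_an.CcsDeltaSum
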